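import Pool.Agent.MBX.Stmts
import Pool.Agent.Helper41_Pauli.AsmEst
import Pool.Agent.Helper49_Pauli.Dress

/-!
# MBX, row UA1: pointwise bounds for the trial function
-/

set_option autoImplicit false

open MeasureTheory Complex

namespace Pool.Agent.MBX.H25

open Pool.Agent.Helper49_Pauli
open Pool.Agent.Helper49_Pauli.Asm (nsq_add_le nsq_smul)

lemma nsq_sl (v : X3) (u : S2) : nsq (sl v u) = Helper49_Pauli.sq v * nsq u := by
  unfold nsq Helper49_Pauli.sq
  rw [Fin.sum_univ_two, Fin.sum_univ_two, Fin.sum_univ_three]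
  simp only [sl, Fin.sum_univ_three, Complex.sq_norm, Complex.normSq_apply]
  simp [sg_apply]
  ring

lemma coe_smul' (r : ℝ) (u : S2) : ((r : ℝ) : ℂ) • u = r • u := by
  ext s
  simp

lemma nsq_real_smul (r : ℝ) (u : S2) : nsq (((r : ℝ) : ℂ) • u) = r ^ 2 * nsq u := by
  rw [nsq_smul, Complex.norm_real, Real.norm_eq_abs, sq_abs]

lemma nsq_neg' (u : S2) : nsq (-u) = nsq u := by
  unfold nsq
  apply Finset.sum_congr rfl
  intro s _
  rw [Pi.neg_apply, norm_neg]

lemma nsq_sub_le (a b : S2) : nsq (a - b) ≤ 2 * nsq a + 2 * nsq b := by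
  have h := nsq_add_le a (-b)
  rw [nsq_neg'] at h
  rw [sub_eq_add_neg]
  exact h

lemma nsq_chi0 : nsq chi0 = 1 := by
  unfold nsq chi0
  rw [Fin.sum_univ_two]
  simp

lemma nsq_lin {ι : Type} [Fintype ι] (y : ι → ℝ) (v : ι → S2) :
    nsq (∑ i, ((y i : ℝ) : ℂ) • v i) ≤ nn y * ∑ i, nsq (v i) := by
  unfold nsq nn
  rw [Finset.sum_comm (f := fun i s => ‖v i s‖ ^ 2), Finset.mul_sum]
  apply Finset.sum_le_sum
  intro s _
  rw [Finset.sum_apply]
  have h1 : ‖∑ i, (((y i : ℝ) : ℂ) • v i) s‖ ≤ ∑ i, |y i| * ‖v i s‖ := by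
    refine (norm_sum_le _ _).trans (Finset.sum_le_sum fun i _ => ?_)
    rw [Pi.smul_apply, norm_smul, Complex.norm_real, Real.norm_eq_abs]
  have h2 := pow_le_pow_left₀ (norm_nonneg _) h1 2
  refine h2.trans ?_
  have h3 := Finset.sum_mul_sq_le_sq_mul_sq Finset.univ (fun i => |y i|) (fun i => ‖v i s‖)
  simp only [sq_abs] at h3
  exact h3

section modes

variable {cut L : ℝ}

lemma sq_kk_ge (hL : 0 < L) (i : Mode cut L) :
    (2 * Real.pi / L) ^ 2 ≤ Helper49_Pauli.sq (kk i) := by
  have hn := (Pool.Agent.Helper75_Pauli.Half.mem_momenta i.1.2).1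
  obtain ⟨j, hj⟩ : ∃ j, i.1.1 j ≠ 0 := by
    by_contra h
    push Not at h
    exact hn (funext h)
  have h0 : (1 : ℤ) ≤ (i.1.1 j) ^ 2 := by
    have h1 := Int.one_le_abs hj
    rw [← sq_abs]
    nlinarith
  have h1 : (1 : ℝ) ≤ ((i.1.1 j : ℤ) : ℝ) ^ 2 := by exact_mod_cast h0
  have h2 : (wave L i.1.1 j) ^ 2 ≤ Helper49_Pauli.sq (kk i) := by
    unfold Helper49_Pauli.sq kk
    exact Finset.single_le_sum (f := fun j => (wave L i.1.1 j) ^ 2) (fun _ _ => sq_nonneg _)
      (Finset.mem_univ j)
  refine le_trans ?_ h2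
  unfold wave
  rw [mul_pow]
  exact le_mul_of_one_le_right (sq_nonneg _) h1

lemma om_ge (hL : 0 < L) (i : Mode cut L) : 2 * Real.pi / L ≤ om i := by
  have h := sq_kk_ge hL i
  have h1 : om i = Real.sqrt (Helper49_Pauli.sq (kk i)) := rfl
  rw [h1]
  exact Real.le_sqrt_of_sq_le h

lemma om_pos (hL : 0 < L) (i : Mode cut L) : 0 < om i :=
  lt_of_lt_of_le (div_pos (by positivity) hL) (om_ge hL i)

lemma sq_kk_eq (hL : 0 < L) (i : Mode cut L) : Helper49_Pauli.sq (kk i) = om i ^ 2 := by
  have h1 : om i = Real.sqrt (Helper49_Pauli.sq (kk i)) := rfl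
  rw [h1, Real.sq_sqrt]
  exact le_trans (sq_nonneg _) (sq_kk_ge hL i)

lemma am_sq (hL : 0 < L) (i : Mode cut L) : am i ^ 2 = 1 / (L ^ 3 * om i) := by
  have h := om_pos hL i
  unfold am
  rw [div_pow, one_pow, Real.sq_sqrt (by positivity)]

lemma one_le_Lom (hL : 0 < L) (i : Mode cut L) : 1 ≤ L * om i := by
  have h := om_ge hL i
  rw [div_le_iff₀ hL] at h
  have := Real.pi_gt_three
  nlinarith

lemma am_sq_le (hL : 0 < L) (hc : 2 * Real.pi < L * cut) (i : Mode cut L) : am i ^ 2 ≤ cut ^ 2 := by
  rw [am_sq hL]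
  have h := om_pos hL i
  have h1 := one_le_Lom hL i
  rw [div_le_iff₀ (by positivity)]
  have h2 : 1 ≤ L * cut := by
    have := Real.pi_gt_three
    linarith
  have e : cut ^ 2 * (L ^ 3 * om i) = (L * cut) ^ 2 * (L * om i) := by ring
  rw [e]
  have h3 : 1 ≤ (L * cut) ^ 2 := one_le_pow₀ h2
  nlinarith

lemma am_om_le (hL : 0 < L) (i : Mode cut L) : am i ^ 2 / om i ^ 2 ≤ 1 := by
  rw [am_sq hL]
  have h := om_pos hL i
  have h1 := one_le_Lom hL i
  rw [div_div, div_le_one (by positivity)]
  have e : L ^ 3 * om i * om i ^ 2 = (L * om i) ^ 3 := by ring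
  rw [e]
  exact one_le_pow₀ h1

lemma sq_e (P : Polarization L) (i : Mode cut L) : Helper49_Pauli.sq (P.e i.1.1 i.2) = 1 := by
  have hn := (Pool.Agent.Helper75_Pauli.Half.mem_momenta i.1.2).1
  have h := P.orthonormal i.1.1 hn i.2 i.2
  rw [if_pos rfl] at h
  rw [← h]
  unfold Helper49_Pauli.sq dot
  apply Finset.sum_congr rfl
  intro j _
  ring

/-- the real coefficient of `TT` -/
noncomputable def rr (alpha : ℝ) (i : Mode cut L) (x : X3) : ℝ :=
  Real.sqrt alpha * am i * Real.sin (dot (kk i) x - tt i) / Helper49_Pauli.sq (kk i)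

/-- the spinor of `TT` -/
noncomputable def ww (P : Polarization L) (i : Mode cut L) : S2 :=
  I • sl (kk i) (sl (P.e i.1.1 i.2) chi0)

lemma TT_eq (alpha : ℝ) (P : Polarization L) (i : Mode cut L) (x : X3) :
    TT alpha P i x chi0 = ((rr alpha i x : ℝ) : ℂ) • ww P i := rfl

lemma nsq_ww (P : Polarization L) (i : Mode cut L) :
    nsq (ww P i) = Helper49_Pauli.sq (kk i) := by
  unfold ww
  rw [nsq_smul, Complex.norm_I, nsq_sl, nsq_sl, sq_e, nsq_chi0]
  ring

lemma nsq_TT (alpha : ℝ) (ha : 0 < alpha) (hL : 0 < L) (P : Polarization L) (i : Mode cut L)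
    (x : X3) : nsq (TT alpha P i x chi0) ≤ alpha := by
  rw [TT_eq, nsq_real_smul, nsq_ww]
  have h := om_pos hL i
  have hs := sq_kk_eq hL i
  have h1 : rr alpha i x ^ 2 * Helper49_Pauli.sq (kk i) =
      alpha * (am i ^ 2 / om i ^ 2) * Real.sin (dot (kk i) x - tt i) ^ 2 := by
    unfold rr
    rw [hs, div_pow, mul_pow, mul_pow, Real.sq_sqrt ha.le]
    field_simp
  rw [h1]
  have h2 := am_om_le hL i
  have h3 : Real.sin (dot (kk i) x - tt i) ^ 2 ≤ 1 := Real.sin_sq_le_one _
  have h4 : 0 ≤ am i ^ 2 / om i ^ 2 := by positivity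
  calc alpha * (am i ^ 2 / om i ^ 2) * Real.sin (dot (kk i) x - tt i) ^ 2
      ≤ alpha * (am i ^ 2 / om i ^ 2) * 1 :=
        mul_le_mul_of_nonneg_left h3 (mul_nonneg ha.le h4)
    _ ≤ alpha * 1 * 1 := by
        apply mul_le_mul_of_nonneg_right _ zero_le_one
        exact mul_le_mul_of_nonneg_left h2 ha.le
    _ = alpha := by ring

/-- the derivative of the coefficient -/
lemma rr_deriv (alpha : ℝ) (i : Mode cut L) (x : X3) :
    HasFDerivAt (fun x => rr alpha i x)
      ((Real.sqrt alpha * am i * Real.cos (dot (kk i) x - tt i) / Helper49_Pauli.sq (kk i)) •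
        ∑ j, (kk i) j • (ContinuousLinearMap.proj j : X3 →L[ℝ] ℝ)) x := by
  have h1 : HasFDerivAt (fun x => dot (kk i) x - tt i)
      (∑ j, (kk i) j • (ContinuousLinearMap.proj j : X3 →L[ℝ] ℝ)) x :=
    (hasFDerivAt_dot (kk i) x).sub_const _
  have h2 := (h1.sin.const_mul (Real.sqrt alpha * am i)).mul_const (Helper49_Pauli.sq (kk i))⁻¹
  have h3 : (fun x => rr alpha i x) = fun x => Real.sqrt alpha * am i *
      Real.sin (dot (kk i) x - tt i) * (Helper49_Pauli.sq (kk i))⁻¹ := by
    funext x
    rw [rr, div_eq_mul_inv]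
  rw [h3]
  refine h2.congr_fderiv ?_
  ext v
  simp only [ContinuousLinearMap.smul_apply, smul_eq_mul]
  ring

lemma rr_contDiff (alpha : ℝ) (i : Mode cut L) : ContDiff ℝ (⊤ : ℕ∞) (fun x => rr alpha i x) := by
  have h1 : ContDiff ℝ (⊤ : ℕ∞) (fun x : X3 => dot (kk i) x) := by
    unfold dot
    fun_prop
  have h3 : (fun x => rr alpha i x) = fun x => Real.sqrt alpha * am i *
      Real.sin (dot (kk i) x - tt i) * (Helper49_Pauli.sq (kk i))⁻¹ := by
    funext x
    rw [rr, div_eq_mul_inv]
  rw [h3]
  exact (contDiff_const.mul (Real.contDiff_sin.comp (h1.sub contDiff_const))).mul contDiff_const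

lemma sl_VV (alpha : ℝ) (P : Polarization L) (y : Mode cut L → ℝ) (x : X3) (u : S2) :
    sl (VV alpha P y x) u = ∑ i, ((Real.sqrt alpha * (y i * (am i *
      Real.cos (dot (kk i) x - tt i))) : ℝ) : ℂ) • sl (P.e i.1.1 i.2) u := by
  have h : VV alpha P y x = ∑ i, (Real.sqrt alpha * (y i * (am i *
      Real.cos (dot (kk i) x - tt i)))) • P.e i.1.1 i.2 := by
    funext j
    rw [Finset.sum_apply]
    unfold VV
    rw [Finset.mul_sum]
    apply Finset.sum_congr rfl
    intro i _
    rw [Pi.smul_apply, smul_eq_mul]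
    ring
  rw [h, sl_sum, LinearMap.sum_apply]
  apply Finset.sum_congr rfl
  intro i _
  rw [sl_smul, LinearMap.smul_apply]

lemma sq_VV (alpha : ℝ) (ha : 0 < alpha) (hL : 0 < L) (hc : 2 * Real.pi < L * cut)
    (P : Polarization L) (y : Mode cut L → ℝ) (x : X3) :
    Helper49_Pauli.sq (VV alpha P y x) ≤ alpha * Fintype.card (Mode cut L) * cut ^ 2 * nn y := by
  have h1 : ∀ j, VV alpha P y x j ^ 2 ≤ alpha * (nn y * ∑ i : Mode cut L,
      (am i * Real.cos (dot (kk i) x - tt i) * P.e i.1.1 i.2 j) ^ 2) := by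
    intro j
    unfold VV
    rw [mul_pow, Real.sq_sqrt ha.le]
    apply mul_le_mul_of_nonneg_left _ ha.le
    exact Finset.sum_mul_sq_le_sq_mul_sq Finset.univ (fun i => y i)
      (fun i => am i * Real.cos (dot (kk i) x - tt i) * P.e i.1.1 i.2 j)
  have h0 : 0 ≤ nn y := Finset.sum_nonneg fun _ _ => sq_nonneg _
  calc Helper49_Pauli.sq (VV alpha P y x)
      ≤ ∑ j, alpha * (nn y * ∑ i : Mode cut L,
        (am i * Real.cos (dot (kk i) x - tt i) * P.e i.1.1 i.2 j) ^ 2) :=
        Finset.sum_le_sum fun j _ => h1 j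
    _ = alpha * (nn y * ∑ i : Mode cut L, (am i * Real.cos (dot (kk i) x - tt i)) ^ 2 *
        Helper49_Pauli.sq (P.e i.1.1 i.2)) := by
        rw [← Finset.mul_sum, ← Finset.mul_sum, Finset.sum_comm]
        congr 2
        apply Finset.sum_congr rfl
        intro i _
        unfold Helper49_Pauli.sq
        rw [Finset.mul_sum]
        apply Finset.sum_congr rfl
        intro j _
        ring
    _ ≤ alpha * (nn y * ∑ i : Mode cut L, cut ^ 2) := by
        apply mul_le_mul_of_nonneg_left _ ha.le
        apply mul_le_mul_of_nonneg_left _ h0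
        apply Finset.sum_le_sum
        intro i _
        rw [sq_e, mul_one, mul_pow]
        have h2 := am_sq_le hL hc i
        have h3 : Real.cos (dot (kk i) x - tt i) ^ 2 ≤ 1 := Real.cos_sq_le_one _
        nlinarith [sq_nonneg (am i), sq_nonneg (Real.cos (dot (kk i) x - tt i))]
    _ = alpha * Fintype.card (Mode cut L) * cut ^ 2 * nn y := by
        rw [Finset.sum_const, Finset.card_univ, nsmul_eq_mul]
        ring

end modes

/-- derivative of a real function times a constant spinor -/
lemma deriv_const {f : X3 → ℝ} {f' : X3 →L[ℝ] ℝ} {x : X3} (hf : HasFDerivAt f f' x) (w : S2) :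
    HasFDerivAt (fun y => ((f y : ℝ) : ℂ) • w) (f'.smulRight w) x := by
  have h := hf.smul_const w
  have e : (fun y => ((f y : ℝ) : ℂ) • w) = fun y => f y • w := by
    funext y
    exact coe_smul' _ _
  rw [e]
  exact h

theorem ua1 : Ua1Stmt := by
  intro alpha cut L P ha hL hc g hg hgs u0 u hu0 hu
  have hd0 : ContDiff ℝ (⊤ : ℕ∞) (fun x => ((g x : ℝ) : ℂ) • chi0) := by
    have e : (fun x => ((g x : ℝ) : ℂ) • chi0) = fun x => g x • chi0 := by
      funext x
      exact coe_smul' _ _
    rw [e]
    exact hg.smul contDiff_const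
  have hui : ∀ i x, u i x = ((-(g x * rr alpha i x) : ℝ) : ℂ) • ww P i := by
    intro i x
    rw [hu]
    show -((g x : ℝ) : ℂ) • TT alpha P i x chi0 = _
    rw [TT_eq, smul_smul]
    congr 1
    push_cast
    ring
  have hdi : ∀ i, ContDiff ℝ (⊤ : ℕ∞) (u i) := by
    intro i
    have e : u i = fun x => (-(g x * rr alpha i x)) • ww P i := by
      funext x
      rw [hui, coe_smul']
    rw [e]
    exact ((hg.mul (rr_contDiff alpha i)).neg).smul contDiff_const
  have hc0 : HasCompactSupport u0 := by
    rw [hu0]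
    apply hgs.mono
    intro x hx hx0
    apply hx
    show ((g x : ℝ) : ℂ) • chi0 = 0
    rw [hx0]
    simp
  have hci : ∀ i, HasCompactSupport (u i) := by
    intro i
    apply hgs.mono
    intro x hx hx0
    apply hx
    rw [hui, hx0]
    simp
  refine ⟨by rw [hu0]; exact hd0, hc0, hdi, hci, ?_, ?_⟩
  · intro i x
    rw [hu]
    show nsq (-((g x : ℝ) : ℂ) • TT alpha P i x chi0) ≤ alpha * g x ^ 2
    rw [neg_smul, nsq_neg', nsq_real_smul, mul_comm]
    exact mul_le_mul_of_nonneg_right (nsq_TT alpha ha hL P i x) (sq_nonneg _)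
  · intro y x
    have hn0 : 0 ≤ nn y := Finset.sum_nonneg fun _ _ => sq_nonneg _
    -- the correction
    obtain ⟨T, hT⟩ : ∃ T : S2, T = ∑ i, ((y i : ℝ) : ℂ) • TT alpha P i x chi0 := ⟨_, rfl⟩
    have hnT : nsq T ≤ alpha * Fintype.card (Mode cut L) * nn y := by
      rw [hT]
      refine (nsq_lin y fun i => TT alpha P i x chi0).trans ?_
      have h1 : ∑ i, nsq (TT alpha P i x chi0) ≤ ∑ i : Mode cut L, alpha :=
        Finset.sum_le_sum fun i _ => nsq_TT alpha ha hL P i x
      rw [Finset.sum_const, Finset.card_univ, nsmul_eq_mul] at h1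
      calc nn y * ∑ i, nsq (TT alpha P i x chi0)
          ≤ nn y * ((Fintype.card (Mode cut L) : ℝ) * alpha) := mul_le_mul_of_nonneg_left h1 hn0
        _ = alpha * Fintype.card (Mode cut L) * nn y := by ring
    have hwf : wf u0 u y x = ((g x : ℝ) : ℂ) • (chi0 - T) := by
      unfold wf
      rw [hu0, hu, hT, smul_sub, Finset.smul_sum, sub_eq_add_neg, ← Finset.sum_neg_distrib]
      congr 1
      apply Finset.sum_congr rfl
      intro i _
      show ((y i : ℝ) : ℂ) • (-((g x : ℝ) : ℂ) • TT alpha P i x chi0) = _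
      rw [neg_smul, smul_neg, smul_comm]
    have hv : nsq (chi0 - T) ≤ 2 * (1 + alpha * Fintype.card (Mode cut L) * nn y) := by
      have h := nsq_sub_le chi0 T
      rw [nsq_chi0] at h
      linarith
    have hv2 : 1 / 2 - alpha * Fintype.card (Mode cut L) * nn y ≤ nsq (chi0 - T) := by
      have h := nsq_add_le (chi0 - T) T
      rw [sub_add_cancel, nsq_chi0] at h
      linarith
    refine ⟨?_, ?_, ?_⟩
    · -- the Dirac operator
      have hgd : HasFDerivAt g (fderiv ℝ g x) x := (hg.differentiable (by simp) x).hasFDerivAt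
      -- derivative of the wave function
      have hF : HasFDerivAt (fun x => wf u0 u y x) ((fderiv ℝ g x).smulRight chi0 +
          ∑ i, (((y i : ℝ) : ℂ) • ((-(g x • ((Real.sqrt alpha * am i *
            Real.cos (dot (kk i) x - tt i) / Helper49_Pauli.sq (kk i)) •
            ∑ j, (kk i) j • (ContinuousLinearMap.proj j : X3 →L[ℝ] ℝ)) +
            rr alpha i x • fderiv ℝ g x)).smulRight (ww P i)))) x := by
        have h0 : HasFDerivAt u0 ((fderiv ℝ g x).smulRight chi0) x := by
          rw [hu0]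
          exact deriv_const hgd chi0
        have hi : ∀ i, HasFDerivAt (u i) ((-(g x • ((Real.sqrt alpha * am i *
            Real.cos (dot (kk i) x - tt i) / Helper49_Pauli.sq (kk i)) •
            ∑ j, (kk i) j • (ContinuousLinearMap.proj j : X3 →L[ℝ] ℝ)) +
            rr alpha i x • fderiv ℝ g x)).smulRight (ww P i)) x := by
          intro i
          have e : u i = fun x => ((-(g x * rr alpha i x) : ℝ) : ℂ) • ww P i := by
            funext x
            exact hui i x
          rw [e]
          exact deriv_const ((hgd.mul (rr_deriv alpha i x)).neg) (ww P i)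
        exact h0.add (HasFDerivAt.fun_sum (u := Finset.univ) fun i _ =>
          (hi i).const_smul ((y i : ℝ) : ℂ))
      have hD : ∀ j, fderiv ℝ (fun x => wf u0 u y x) x (ee j) =
          ((pd j g x : ℝ) : ℂ) • (chi0 - T) - ((g x : ℝ) : ℂ) • ∑ i, ((y i * (Real.sqrt alpha *
            am i * Real.cos (dot (kk i) x - tt i) / Helper49_Pauli.sq (kk i)) * (kk i) j : ℝ) : ℂ) •
              ww P i := by
        intro j
        rw [hF.fderiv]
        have hp : fderiv ℝ g x (ee j) = pd j g x := rfl
        rw [ContinuousLinearMap.add_apply, ContinuousLinearMap.smulRight_apply, hp,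
          ContinuousLinearMap.sum_apply, hT, smul_sub, Finset.smul_sum, Finset.smul_sum, sub_sub,
          ← Finset.sum_add_distrib, sub_eq_add_neg, ← Finset.sum_neg_distrib, coe_smul']
        congr 1
        apply Finset.sum_congr rfl
        intro i _
        rw [ContinuousLinearMap.smul_apply, ContinuousLinearMap.smulRight_apply,
          ContinuousLinearMap.neg_apply, ContinuousLinearMap.add_apply,
          ContinuousLinearMap.smul_apply, ContinuousLinearMap.smul_apply,
          ContinuousLinearMap.smul_apply, proj_sum_apply, hp, TT_eq, smul_smul, smul_smul,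
          smul_smul, ← coe_smul', smul_smul, smul_smul, ← add_smul, ← neg_smul]
        congr 1
        simp only [smul_eq_mul]
        push_cast
        ring
      have hdop : dop (VV alpha P y) (wf u0 u y) x =
          (-I) • sl (fun j => pd j g x) (chi0 - T) - ((g x : ℝ) : ℂ) • sl (VV alpha P y x) T := by
        have hcov : ∀ j, cov (VV alpha P y) j (wf u0 u y) x =
            (-I) • fderiv ℝ (fun x => wf u0 u y x) x (ee j) +
              (VV alpha P y x j : ℂ) • wf u0 u y x := fun j =>
          cov_eq _ j _ x hF.differentiableAt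
        unfold dop
        have h1 : ∑ j, sg j (cov (VV alpha P y) j (wf u0 u y) x) =
            (-I) • ∑ j, sg j (fderiv ℝ (fun x => wf u0 u y x) x (ee j)) +
              sl (VV alpha P y x) (wf u0 u y x) := by
          rw [sl_apply, Finset.smul_sum, ← Finset.sum_add_distrib]
          apply Finset.sum_congr rfl
          intro j _
          rw [hcov, map_add, map_smul, map_smul]
        have h2 : ∑ j, sg j (fderiv ℝ (fun x => wf u0 u y x) x (ee j)) =
            sl (fun j => pd j g x) (chi0 - T) -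
              ((g x : ℝ) : ℂ) • (I • sl (VV alpha P y x) chi0) := by
          have h3 : ∀ j, sg j (fderiv ℝ (fun x => wf u0 u y x) x (ee j)) =
              ((pd j g x : ℝ) : ℂ) • sg j (chi0 - T) - ((g x : ℝ) : ℂ) • ∑ i, ((y i *
                (Real.sqrt alpha * am i * Real.cos (dot (kk i) x - tt i) /
                  Helper49_Pauli.sq (kk i)) * (kk i) j : ℝ) : ℂ) • sg j (ww P i) := by
            intro j
            rw [hD j, map_sub, map_smul, map_smul, map_sum]
            congr 2
            apply Finset.sum_congr rfl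
            intro i _
            rw [map_smul]
          have hk : ∑ j, ∑ i, ((y i * (Real.sqrt alpha * am i *
              Real.cos (dot (kk i) x - tt i) / Helper49_Pauli.sq (kk i)) * (kk i) j : ℝ) : ℂ) •
                sg j (ww P i) = I • sl (VV alpha P y x) chi0 := by
            rw [Finset.sum_comm, sl_VV, Finset.smul_sum]
            apply Finset.sum_congr rfl
            intro i _
            have h4 : ∑ j, ((y i * (Real.sqrt alpha * am i * Real.cos (dot (kk i) x - tt i) /
                Helper49_Pauli.sq (kk i)) * (kk i) j : ℝ) : ℂ) • sg j (ww P i) =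
                ((y i * (Real.sqrt alpha * am i * Real.cos (dot (kk i) x - tt i) /
                Helper49_Pauli.sq (kk i)) : ℝ) : ℂ) • sl (kk i) (ww P i) := by
              rw [sl_apply, Finset.smul_sum]
              apply Finset.sum_congr rfl
              intro j _
              rw [smul_smul]
              congr 1
              push_cast
              ring
            rw [h4]
            unfold ww
            rw [map_smul, sl_sl, smul_smul, smul_smul, smul_smul]
            congr 1
            have hs : Helper49_Pauli.sq (kk i) ≠ 0 := by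
              rw [sq_kk_eq hL]
              exact pow_ne_zero 2 (om_pos hL i).ne'
            have hs' : ((Helper49_Pauli.sq (kk i) : ℝ) : ℂ) ≠ 0 := by exact_mod_cast hs
            push_cast
            field_simp
          rw [Finset.sum_congr rfl fun j _ => h3 j, Finset.sum_sub_distrib, ← sl_apply,
            ← Finset.smul_sum, hk]
        rw [h1, h2, hwf, map_smul, map_sub (sl (VV alpha P y x)), smul_sub, smul_smul, smul_smul,
          smul_sub]
        have h5 : -I * ((g x : ℝ) : ℂ) * I = ((g x : ℝ) : ℂ) := by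
          have : -I * ((g x : ℝ) : ℂ) * I = -(((g x : ℝ) : ℂ) * (I * I)) := by ring
          rw [this, Complex.I_mul_I]
          ring
        rw [h5]
        abel
      rw [hdop]
      refine (nsq_sub_le _ _).trans ?_
      have hA : nsq ((-I) • sl (fun j => pd j g x) (chi0 - T)) ≤
          (∑ j, pd j g x ^ 2) * (2 * (1 + alpha * Fintype.card (Mode cut L) * nn y)) := by
        rw [nsq_smul, norm_neg, Complex.norm_I, one_pow, one_mul, nsq_sl]
        exact mul_le_mul_of_nonneg_left hv (Finset.sum_nonneg fun _ _ => sq_nonneg _)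
      have hB : nsq (((g x : ℝ) : ℂ) • sl (VV alpha P y x) T) ≤ g x ^ 2 *
          (alpha ^ 2 * (Fintype.card (Mode cut L) : ℝ) ^ 2 * cut ^ 2 * nn y ^ 2) := by
        rw [nsq_real_smul, nsq_sl]
        apply mul_le_mul_of_nonneg_left _ (sq_nonneg _)
        have h1 := sq_VV alpha ha hL hc P y x
        have h2 : 0 ≤ Helper49_Pauli.sq (VV alpha P y x) :=
          Finset.sum_nonneg fun _ _ => sq_nonneg _
        calc Helper49_Pauli.sq (VV alpha P y x) * nsq T
            ≤ (alpha * Fintype.card (Mode cut L) * cut ^ 2 * nn y) *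
              (alpha * Fintype.card (Mode cut L) * nn y) :=
              mul_le_mul h1 hnT (nsq_nonneg _) (h2.trans h1)
          _ = _ := by ring
      have hG : 0 ≤ ∑ j, pd j g x ^ 2 := Finset.sum_nonneg fun _ _ => sq_nonneg _
      have hM : 0 ≤ 1 + alpha * Fintype.card (Mode cut L) * nn y := by positivity
      nlinarith [mul_nonneg hG hM]
    · rw [hwf, nsq_real_smul]
      calc g x ^ 2 * nsq (chi0 - T)
          ≤ g x ^ 2 * (2 * (1 + alpha * Fintype.card (Mode cut L) * nn y)) :=
            mul_le_mul_of_nonneg_left hv (sq_nonneg _)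
        _ = _ := by ring
    · rw [hwf, nsq_real_smul]
      exact mul_le_mul_of_nonneg_left hv2 (sq_nonneg _)

end Pool.Agent.MBX.H25
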